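import Mathlib

set_option autoImplicit false

namespace Pool.Agent.Results.MP_b4c394_co.CloneFamily

open Matroid

/-- Isomorphism of matroids: a bijection between the ground sets that maps the independent sets
exactly onto the independent sets. -/
def MatIso {α β : Type} (M : Matroid α) (N : Matroid β) : Prop :=
  ∃ φ : M.E ≃ N.E, ∀ I : Set M.E,
    M.Indep (Subtype.val '' I) ↔ N.Indep (Subtype.val '' (φ '' I))

/-- `M` is minor reconstructible: every matroid `N` on the same ground set whose single-element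
deletions and contractions are isomorphic to those of `M`, element by element, is isomorphic
to `M`. -/
def MinorReconstructible {α : Type} (M : Matroid α) : Prop :=
  ∀ N : Matroid α, N.E = M.E →
    (∀ e ∈ M.E, MatIso (N.delete {e}) (M.delete {e}) ∧ MatIso (N.contract {e}) (M.contract {e})) →
    MatIso N M

/-- The seven edges of the first 3-uniform hypergraph on six vertices. -/
def HX : Fin 7 → Finset (Fin 6) :=
  ![{0, 1, 2}, {0, 1, 3}, {0, 3, 5}, {0, 4, 5}, {1, 2, 5}, {1, 3, 4}, {2, 3, 4}]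

/-- The seven edges of the second 3-uniform hypergraph on six vertices. -/
def HY : Fin 7 → Finset (Fin 6) :=
  ![{0, 1, 4}, {0, 1, 5}, {0, 2, 3}, {0, 3, 5}, {1, 2, 3}, {1, 3, 4}, {2, 4, 5}]

/-- The matroid `M` on `Fin 6 × Fin k` is the sparse paving matroid of rank `3 k` whose
circuit-hyperplanes are the seven sets `B × Fin k`, with `B` an edge of the hypergraph `H`. -/
def IsBlowUp (k : ℕ) (H : Fin 7 → Finset (Fin 6)) (M : Matroid (Fin 6 × Fin k)) : Prop :=
  M.E = Set.univ ∧ M.eRank = ((3 * k : ℕ) : ℕ∞) ∧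
    ∀ I : Finset (Fin 6 × Fin k),
      M.Indep (I : Set (Fin 6 × Fin k)) ↔ I.card ≤ 3 * k ∧ ∀ i, I ≠ H i ×ˢ Finset.univ

/-! ### General facts on isomorphisms -/

theorem matIso_of {α β : Type} {M : Matroid α} {N : Matroid β} (g : α ≃ β)
    (hE : ∀ x, x ∈ M.E ↔ g x ∈ N.E) (h : ∀ I ⊆ M.E, (M.Indep I ↔ N.Indep (g '' I))) :
    MatIso M N := by
  refine ⟨g.subtypeEquiv hE, fun I => ?_⟩
  have hsub : Subtype.val '' I ⊆ M.E := by
    rintro _ ⟨x, _, rfl⟩
    exact x.2
  have him : (Subtype.val '' ((g.subtypeEquiv hE) '' I) : Set β) = g '' (Subtype.val '' I) := by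
    ext y
    constructor
    · rintro ⟨_, ⟨x, hx, rfl⟩, rfl⟩
      exact ⟨x.1, ⟨x, hx, rfl⟩, rfl⟩
    · rintro ⟨_, ⟨x, hx, rfl⟩, rfl⟩
      exact ⟨_, ⟨x, hx, rfl⟩, rfl⟩
  rw [him]
  exact h _ hsub

theorem MatIso.symm {α β : Type} {M : Matroid α} {N : Matroid β} (h : MatIso M N) :
    MatIso N M := by
  obtain ⟨φ, hφ⟩ := h
  refine ⟨φ.symm, fun I => ?_⟩
  rw [hφ (φ.symm '' I), Equiv.image_symm_eq_preimage, Set.image_preimage_eq _ φ.surjective]

/-! ### Sparse paving matroids -/

section SP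

variable {α ι : Type} [DecidableEq α] [Fintype α]

/-- The sparse paving matroid of rank `r` with given circuit-hyperplanes. -/
def sp (r : ℕ) (b : ι → Finset α) (h0 : 0 < r) (h1 : ∀ i, (b i).card = r)
    (h2 : ∀ i j, b i ≠ b j → (b i ∩ b j).card + 2 ≤ r) : Matroid α :=
  (IndepMatroid.ofFinset Set.univ (fun I => I.card ≤ r ∧ ∀ i, I ≠ b i)
    ⟨by simp, fun i h => by have := h1 i; rw [← h] at this; simp at this; omega⟩
    (by
      intro I J hJ hIJ
      have hc := Finset.card_le_card hIJ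
      refine ⟨hc.trans hJ.1, fun i hI => ?_⟩
      have h6 := h1 i
      rw [← hI] at h6
      have : I = J := Finset.eq_of_subset_of_card_le hIJ (by rw [h6]; exact hJ.1)
      exact hJ.2 i (this ▸ hI))
    (by
      intro I J hI hJ hlt
      obtain ⟨e, heJ, heI⟩ : ∃ e ∈ J, e ∉ I := by
        by_contra hcon
        push Not at hcon
        exact absurd (Finset.card_le_card (fun x hx => hcon x hx)) (by omega)
      by_cases hins : ∃ i, insert e I = b i
      · obtain ⟨i, hi⟩ := hins
        have hI6 : I.card + 1 = r := by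
          have := h1 i
          rw [← hi, Finset.card_insert_of_notMem heI] at this
          omega
        have hJ6 : J.card = r := by have := hJ.1; omega
        obtain ⟨e', heJ', heI'⟩ : ∃ e' ∈ J, e' ∉ insert e I := by
          by_contra hcon
          push Not at hcon
          have hsub : J ⊆ insert e I := fun x hx => hcon x hx
          have heq : J = insert e I := Finset.eq_of_subset_of_card_le hsub (by
            rw [hi, h1, hJ6])
          exact hJ.2 i (heq.trans hi)
        have heI'' : e' ∉ I := fun h => heI' (Finset.mem_insert_of_mem h)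
        refine ⟨e', heJ', heI'', ?_, fun j hj => ?_⟩
        · rw [Finset.card_insert_of_notMem heI'']; omega
        · have hneq : b i ≠ b j := by
            intro hb
            have : e' ∈ insert e I := by
              rw [hi, hb, ← hj]
              exact Finset.mem_insert_self _ _
            exact heI' this
          have hle := h2 i j hneq
          rw [← hi, ← hj] at hle
          have hsub : I ⊆ insert e I ∩ insert e' I :=
            Finset.subset_inter (Finset.subset_insert _ _) (Finset.subset_insert _ _)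
          have := Finset.card_le_card hsub
          omega
      · push Not at hins
        refine ⟨e, heJ, heI, ?_, hins⟩
        rw [Finset.card_insert_of_notMem heI]
        have := hJ.1
        omega)
    (fun _ _ => Set.subset_univ _)).matroid

theorem sp_E (r : ℕ) (b : ι → Finset α) (h0 : 0 < r) (h1 : ∀ i, (b i).card = r)
    (h2 : ∀ i j, b i ≠ b j → (b i ∩ b j).card + 2 ≤ r) : (sp r b h0 h1 h2).E = Set.univ := rfl

theorem sp_indep (r : ℕ) (b : ι → Finset α) (h0 : 0 < r) (h1 : ∀ i, (b i).card = r)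
    (h2 : ∀ i j, b i ≠ b j → (b i ∩ b j).card + 2 ≤ r) (I : Finset α) :
    (sp r b h0 h1 h2).Indep (I : Set α) ↔ I.card ≤ r ∧ ∀ i, I ≠ b i := by
  unfold sp
  rw [IndepMatroid.matroid_indep_iff, IndepMatroid.ofFinset_indep]

theorem sp_eRank (r : ℕ) (b : ι → Finset α) (h0 : 0 < r) (h1 : ∀ i, (b i).card = r)
    (h2 : ∀ i j, b i ≠ b j → (b i ∩ b j).card + 2 ≤ r) (S : Finset α) (hS : S.card = r)
    (hSb : ∀ i, S ≠ b i) : (sp r b h0 h1 h2).eRank = (r : ℕ∞) := by
  have hI : (sp r b h0 h1 h2).Indep (S : Set α) := (sp_indep r b h0 h1 h2 S).2 ⟨hS.le, hSb⟩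
  obtain ⟨B, hB, hSB⟩ := hI.exists_isBase_superset
  lift B to Finset α using Set.toFinite B
  have hBc := ((sp_indep r b h0 h1 h2 B).1 hB.indep).1
  have hc := Finset.card_le_card (Finset.coe_subset.1 hSB)
  rw [← hB.encard_eq_eRank, Set.encard_coe_eq_coe_finsetCard]
  congr 1
  omega

end SP

/-! ### The two hypergraphs -/

set_option maxRecDepth 20000

theorem HX1 : ∀ i, (HX i).card = 3 := by decide
theorem HY1 : ∀ i, (HY i).card = 3 := by decide
theorem HX2 : ∀ i j, i ≠ j → (HX i ∩ HX j).card ≤ 2 := by decide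
theorem HY2 : ∀ i j, i ≠ j → (HY i ∩ HY j).card ≤ 2 := by decide

/-- Which pairs of distinct edges of the second hypergraph meet in two vertices. -/
def nY : Fin 7 → Fin 7 → Fin 2 :=
  ![![0, 1, 0, 0, 0, 1, 0],
    ![1, 0, 0, 1, 0, 0, 0],
    ![0, 0, 0, 1, 1, 0, 0],
    ![0, 1, 1, 0, 0, 0, 0],
    ![0, 0, 1, 0, 0, 1, 0],
    ![1, 0, 0, 0, 1, 0, 0],
    ![0, 0, 0, 0, 0, 0, 0]]

theorem Y3 : ∀ i j, (HY i ∩ HY j).card = 2 → nY i j = 1 := by decide

theorem Y4 : ∀ i j, nY i j = 1 → ∀ k, nY i k = 1 → j ≠ k → ∀ l, nY i l = 1 → j = l ∨ k = l := by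
  decide

theorem X4 : (HX 1 ∩ HX 0).card = 2 ∧ (HX 1 ∩ HX 2).card = 2 ∧
    (HX 1 ∩ HX 5).card = 2 := by decide

/-- The isomorphisms between the vertex-deleted hypergraphs. -/
def fd : Fin 6 → Fin 6 → Fin 6 :=
  ![![0, 2, 4, 1, 3, 5],
    ![0, 1, 4, 2, 5, 3],
    ![0, 4, 2, 1, 3, 5],
    ![4, 0, 1, 3, 2, 5],
    ![0, 3, 2, 5, 4, 1],
    ![2, 3, 0, 1, 4, 5]]

/-- The isomorphisms between the links. -/
def fc : Fin 6 → Fin 6 → Fin 6 :=
  ![![0, 1, 4, 5, 2, 3],
    ![4, 1, 0, 3, 2, 5],
    ![0, 3, 2, 4, 5, 1],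
    ![0, 2, 4, 3, 1, 5],
    ![2, 0, 3, 1, 4, 5],
    ![0, 2, 4, 1, 3, 5]]

theorem fd_inj : ∀ v, Function.Injective (fd v) := by decide
theorem fc_inj : ∀ v, Function.Injective (fc v) := by decide
theorem fd_fix : ∀ v, fd v v = v := by decide
theorem fc_fix : ∀ v, fc v v = v := by decide

theorem fd_fwd : ∀ v i, v ∉ HX i → ∃ j, ∀ x, (fd v x ∈ HY j ↔ x ∈ HX i) := by decide
theorem fd_bwd : ∀ v j, v ∉ HY j → ∃ i, ∀ x, (fd v x ∈ HY j ↔ x ∈ HX i) := by decide
theorem fc_fwd : ∀ v i, v ∈ HX i → ∃ j, ∀ x, (fc v x ∈ HY j ↔ x ∈ HX i) := by decide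
theorem fc_bwd : ∀ v j, v ∈ HY j → ∃ i, ∀ x, (fc v x ∈ HY j ↔ x ∈ HX i) := by decide

/-! ### The blown-up matroids -/

section Blow

variable (k : ℕ)

/-- A block: the clones of the vertices of an edge. -/
def blk (H : Fin 7 → Finset (Fin 6)) (i : Fin 7) : Finset (Fin 6 × Fin k) :=
  H i ×ˢ Finset.univ

theorem mem_blk (H : Fin 7 → Finset (Fin 6)) (i : Fin 7) (x : Fin 6 × Fin k) :
    x ∈ blk k H i ↔ x.1 ∈ H i := by simp [blk]

theorem blk_card (H : Fin 7 → Finset (Fin 6)) (h1 : ∀ i, (H i).card = 3) (i : Fin 7) :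
    (blk k H i).card = 3 * k := by
  rw [blk, Finset.card_product, h1, Finset.card_univ, Fintype.card_fin]

theorem blk_inter (H : Fin 7 → Finset (Fin 6)) (i j : Fin 7) :
    (blk k H i ∩ blk k H j).card = (H i ∩ H j).card * k := by
  have : blk k H i ∩ blk k H j = (H i ∩ H j) ×ˢ Finset.univ := by
    ext x
    simp [blk]
  rw [this, Finset.card_product, Finset.card_univ, Fintype.card_fin]

theorem blk_sep (hk : 2 ≤ k) (H : Fin 7 → Finset (Fin 6))
    (h2 : ∀ i j, i ≠ j → (H i ∩ H j).card ≤ 2) (i j : Fin 7) (hij : blk k H i ≠ blk k H j) :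
    (blk k H i ∩ blk k H j).card + 2 ≤ 3 * k := by
  have hne : i ≠ j := by
    rintro rfl
    exact hij rfl
  rw [blk_inter]
  have := Nat.mul_le_mul_right k (h2 i j hne)
  omega

/-- The blow-up of a hypergraph, as a matroid. -/
def blow (hk : 2 ≤ k) (H : Fin 7 → Finset (Fin 6)) (h1 : ∀ i, (H i).card = 3)
    (h2 : ∀ i j, i ≠ j → (H i ∩ H j).card ≤ 2) : Matroid (Fin 6 × Fin k) :=
  sp (3 * k) (blk k H) (by omega) (blk_card k H h1) (blk_sep k hk H h2)

theorem blow_isBlowUp (hk : 2 ≤ k) (H : Fin 7 → Finset (Fin 6)) (h1 : ∀ i, (H i).card = 3)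
    (h2 : ∀ i j, i ≠ j → (H i ∩ H j).card ≤ 2) : IsBlowUp k H (blow k hk H h1 h2) := by
  refine ⟨rfl, ?_, fun I => sp_indep _ _ _ _ _ I⟩
  -- a basis: exchange one element of a block
  obtain ⟨v, hv⟩ : ∃ v, v ∈ H 0 := by
    have : (H 0).Nonempty := by
      rw [← Finset.card_pos, h1]
      omega
    exact this
  obtain ⟨w, hw⟩ : ∃ w, w ∉ H 0 := by
    by_contra hcon
    push Not at hcon
    have : (Finset.univ : Finset (Fin 6)) ⊆ H 0 := fun x _ => hcon x
    have := Finset.card_le_card this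
    rw [h1, Finset.card_univ, Fintype.card_fin] at this
    omega
  have hk0 : 0 < k := by omega
  set x : Fin 6 × Fin k := (v, ⟨0, hk0⟩) with hx
  set y : Fin 6 × Fin k := (w, ⟨0, hk0⟩) with hy
  have hxB : x ∈ blk k H 0 := (mem_blk k H 0 x).2 hv
  have hyB : y ∉ blk k H 0 := fun h => hw ((mem_blk k H 0 y).1 h)
  have hyE : y ∉ (blk k H 0).erase x := fun h => hyB (Finset.mem_of_mem_erase h)
  refine sp_eRank _ _ _ _ _ (insert y ((blk k H 0).erase x)) ?_ ?_
  · rw [Finset.card_insert_of_notMem hyE, Finset.card_erase_of_mem hxB, blk_card k H h1]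
    omega
  · intro i hi
    by_cases h0 : blk k H 0 = blk k H i
    · rw [← h0] at hi
      exact hyB (hi ▸ Finset.mem_insert_self _ _)
    · have hs := blk_sep k hk H h2 0 i h0
      have hsub : (blk k H 0).erase x ⊆ blk k H 0 ∩ blk k H i := by
        intro z hz
        refine Finset.mem_inter.2 ⟨Finset.mem_of_mem_erase hz, ?_⟩
        rw [← hi]
        exact Finset.mem_insert_of_mem hz
      have := Finset.card_le_card hsub
      rw [Finset.card_erase_of_mem hxB, blk_card k H h1] at this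
      omega

variable {k}

theorem IsBlowUp.indep_blk {H : Fin 7 → Finset (Fin 6)} {M : Matroid (Fin 6 × Fin k)}
    (h : IsBlowUp k H M) (I : Finset (Fin 6 × Fin k)) :
    M.Indep (I : Set (Fin 6 × Fin k)) ↔ I.card ≤ 3 * k ∧ ∀ i, I ≠ blk k H i := h.2.2 I

/-- The permutation of the ground set induced by a permutation of the six vertices. -/
noncomputable def lift (f : Fin 6 → Fin 6) (hf : Function.Injective f) :
    (Fin 6 × Fin k) ≃ (Fin 6 × Fin k) :=
  (Equiv.ofBijective f (Finite.injective_iff_bijective.1 hf)).prodCongr (Equiv.refl _)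

theorem lift_apply (f : Fin 6 → Fin 6) (hf : Function.Injective f) (x : Fin 6 × Fin k) :
    lift f hf x = (f x.1, x.2) := rfl

theorem img (f : Fin 6 → Fin 6) (hf : Function.Injective f) (i j : Fin 7)
    (h : ∀ x, (f x ∈ HY j ↔ x ∈ HX i)) :
    (blk k HX i).image (lift f hf) = blk k HY j := by
  ext y
  obtain ⟨x, rfl⟩ := (lift f hf).surjective y
  rw [(lift f hf).injective.mem_finset_image, mem_blk, mem_blk, lift_apply]
  exact (h x.1).symm

theorem noniso (hk : 2 ≤ k) {M N : Matroid (Fin 6 × Fin k)} (hM : IsBlowUp k HX M)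
    (hN : IsBlowUp k HY N) : ¬ MatIso M N := by
  rintro ⟨φ, hφ⟩
  -- a global map
  let f : Fin 6 × Fin k → Fin 6 × Fin k := fun x => (φ ⟨x, by rw [hM.1]; trivial⟩ : N.E)
  have hinj : Function.Injective f := by
    intro x y hxy
    have := φ.injective (Subtype.val_injective hxy)
    exact congrArg Subtype.val this
  have hI : ∀ I : Finset (Fin 6 × Fin k), (M.Indep (I : Set (Fin 6 × Fin k)) ↔
      N.Indep ((I.image f : Finset (Fin 6 × Fin k)) : Set (Fin 6 × Fin k))) := by
    intro I
    have h := hφ {x : M.E | x.1 ∈ I}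
    have h1 : (Subtype.val '' {x : M.E | x.1 ∈ I} : Set (Fin 6 × Fin k)) = (I : Set _) := by
      ext x
      constructor
      · rintro ⟨y, hy, rfl⟩
        exact hy
      · intro hx
        exact ⟨⟨x, by rw [hM.1]; trivial⟩, hx, rfl⟩
    have h2 : (Subtype.val '' (φ '' {x : M.E | x.1 ∈ I}) : Set (Fin 6 × Fin k)) =
        ((I.image f : Finset (Fin 6 × Fin k)) : Set (Fin 6 × Fin k)) := by
      ext y
      rw [Finset.mem_coe, Finset.mem_image]
      constructor
      · rintro ⟨_, ⟨x, hx, rfl⟩, rfl⟩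
        exact ⟨x.1, hx, rfl⟩
      · rintro ⟨x, hx, rfl⟩
        exact ⟨_, ⟨⟨x, by rw [hM.1]; trivial⟩, hx, rfl⟩, rfl⟩
    rw [h1, h2] at h
    exact h
  have hblk : ∀ i, ∃ j, (blk k HX i).image f = blk k HY j := by
    intro i
    have h := hI (blk k HX i)
    rw [hM.indep_blk, hN.indep_blk, Finset.card_image_of_injective _ hinj,
      blk_card k HX HX1] at h
    by_contra hcon
    push Not at hcon
    exact (h.2 ⟨le_rfl, hcon⟩).2 i rfl
  choose g hg using hblk
  have hk0 : 0 < k := by omega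
  have hint : ∀ i j, (HY (g i) ∩ HY (g j)).card = (HX i ∩ HX j).card := by
    intro i j
    have : (blk k HY (g i) ∩ blk k HY (g j)).card = (blk k HX i ∩ blk k HX j).card := by
      rw [← hg, ← hg, ← Finset.image_inter _ _ hinj, Finset.card_image_of_injective _ hinj]
    rw [blk_inter, blk_inter] at this
    exact Nat.eq_of_mul_eq_mul_right hk0 this
  have hne : ∀ i j, i ≠ j → g i ≠ g j := by
    intro i j hij h
    have h1 := hint i j
    rw [h, Finset.inter_self, HY1] at h1
    have h2 := HX2 i j hij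
    omega
  have a0 := Y3 _ _ ((hint 1 0).trans X4.1)
  have a2 := Y3 _ _ ((hint 1 2).trans X4.2.1)
  have a5 := Y3 _ _ ((hint 1 5).trans X4.2.2)
  rcases Y4 _ _ a0 _ a2 (hne 0 2 (by decide)) _ a5 with h | h
  · exact hne 0 5 (by decide) h
  · exact hne 2 5 (by decide) h

theorem delIso {M N : Matroid (Fin 6 × Fin k)} (hM : IsBlowUp k HX M)
    (hN : IsBlowUp k HY N) (e : Fin 6 × Fin k) : MatIso (M.delete {e}) (N.delete {e}) := by
  set g := lift (k := k) (fd e.1) (fd_inj e.1) with hg
  have hge : g e = e := by rw [hg, lift_apply, fd_fix]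
  refine matIso_of g (fun x => ?_) (fun I hI => ?_)
  · rw [Matroid.delete_ground, Matroid.delete_ground, hM.1, hN.1]
    simp only [Set.mem_sdiff, Set.mem_univ, true_and, Set.mem_singleton_iff]
    rw [not_iff_not]
    constructor
    · rintro rfl
      exact hge
    · intro h
      exact g.injective (h.trans hge.symm)
  lift I to Finset (Fin 6 × Fin k) using Set.toFinite I
  rw [Matroid.delete_ground, hM.1] at hI
  have heI : e ∉ I := fun h => (hI (Finset.mem_coe.2 h)).2 rfl
  have heI' : e ∉ I.image g := by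
    intro h
    obtain ⟨x, hx, hxe⟩ := Finset.mem_image.1 h
    exact heI (g.injective (hxe.trans hge.symm) ▸ hx)
  rw [Matroid.delete_indep_iff, Matroid.delete_indep_iff, ← Finset.coe_image, hM.indep_blk,
    hN.indep_blk, Finset.card_image_of_injective _ g.injective, Set.disjoint_singleton_right,
    Set.disjoint_singleton_right, Finset.mem_coe, Finset.mem_coe]
  have : (∀ i, I ≠ blk k HX i) ↔ (∀ i, I.image g ≠ blk k HY i) := by
    constructor
    · intro h j hj
      rw [hj, mem_blk] at heI'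
      obtain ⟨i, hi⟩ := fd_bwd e.1 j heI'
      rw [← img (k := k) _ (fd_inj _) i j hi] at hj
      exact h i (Finset.image_injective g.injective hj)
    · intro h i hi
      rw [hi, mem_blk] at heI
      obtain ⟨j, hj⟩ := fd_fwd e.1 i heI
      exact h j (by rw [hi, hg, img _ (fd_inj _) i j hj])
  rw [this]
  exact ⟨fun h => ⟨h.1, heI'⟩, fun h => ⟨h.1, heI⟩⟩

theorem IsBlowUp.isNonloop (hk : 2 ≤ k) {H : Fin 7 → Finset (Fin 6)} (h1 : ∀ i, (H i).card = 3)
    {M : Matroid (Fin 6 × Fin k)} (hM : IsBlowUp k H M) (e : Fin 6 × Fin k) : M.IsNonloop e := by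
  rw [← Matroid.indep_singleton, ← Finset.coe_singleton, hM.indep_blk]
  refine ⟨by rw [Finset.card_singleton]; omega, fun i h => ?_⟩
  have := blk_card k H h1 i
  rw [← h, Finset.card_singleton] at this
  omega

theorem conIso (hk : 2 ≤ k) {M N : Matroid (Fin 6 × Fin k)} (hM : IsBlowUp k HX M)
    (hN : IsBlowUp k HY N) (e : Fin 6 × Fin k) : MatIso (M.contract {e}) (N.contract {e}) := by
  set g := lift (k := k) (fc e.1) (fc_inj e.1) with hg
  have hge : g e = e := by rw [hg, lift_apply, fc_fix]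
  refine matIso_of g (fun x => ?_) (fun I hI => ?_)
  · rw [Matroid.contract_ground, Matroid.contract_ground, hM.1, hN.1]
    simp only [Set.mem_sdiff, Set.mem_univ, true_and, Set.mem_singleton_iff]
    rw [not_iff_not]
    constructor
    · rintro rfl
      exact hge
    · intro h
      exact g.injective (h.trans hge.symm)
  lift I to Finset (Fin 6 × Fin k) using Set.toFinite I
  rw [Matroid.contract_ground, hM.1] at hI
  have heI : e ∉ I := fun h => (hI (Finset.mem_coe.2 h)).2 rfl
  have heI' : e ∉ I.image g := by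
    intro h
    obtain ⟨x, hx, hxe⟩ := Finset.mem_image.1 h
    exact heI (g.injective (hxe.trans hge.symm) ▸ hx)
  have hX := hM.isNonloop hk HX1 e
  have hY := hN.isNonloop hk HY1 e
  rw [hX.contractElem_indep_iff, hY.contractElem_indep_iff, ← Finset.coe_image,
    ← Finset.coe_insert, ← Finset.coe_insert, hM.indep_blk, hN.indep_blk, Finset.mem_coe,
    Finset.mem_coe, Finset.card_insert_of_notMem heI, Finset.card_insert_of_notMem heI',
    Finset.card_image_of_injective _ g.injective]
  have himg : insert e (I.image g) = (insert e I).image g := by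
    rw [Finset.image_insert, hge]
  have : (∀ i, insert e I ≠ blk k HX i) ↔
      (∀ i, insert e (I.image g) ≠ blk k HY i) := by
    rw [himg]
    constructor
    · intro h j hj
      have hm : e ∈ blk k HY j := by
        rw [← hj, ← himg]; exact Finset.mem_insert_self _ _
      obtain ⟨i, hi⟩ := fc_bwd e.1 j ((mem_blk _ _ _ _).1 hm)
      rw [← img (k := k) _ (fc_inj _) i j hi] at hj
      exact h i (Finset.image_injective g.injective hj)
    · intro h i hi
      have hm : e ∈ blk k HX i := by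
        rw [← hi]; exact Finset.mem_insert_self _ _
      obtain ⟨j, hj⟩ := fc_fwd e.1 i ((mem_blk _ _ _ _).1 hm)
      exact h j (by rw [hi, hg, img _ (fc_inj _) i j hj])
  rw [this]
  exact ⟨fun h => ⟨heI', h.2⟩, fun h => ⟨heI, h.2⟩⟩

end Blow

/-- For every `k ≥ 2` the two blow-ups are non-isomorphic matroids on the same `6 k` elements
whose single-element deletions and contractions are isomorphic element by element, so that
neither of them is minor reconstructible. -/
theorem result : ∀ k : ℕ, 2 ≤ k → ∃ M N : Matroid (Fin 6 × Fin k),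
    IsBlowUp k HX M ∧ IsBlowUp k HY N ∧
    (∀ e, MatIso (M.delete {e}) (N.delete {e}) ∧ MatIso (M.contract {e}) (N.contract {e})) ∧
    ¬ MatIso M N ∧ ¬ MinorReconstructible M ∧ ¬ MinorReconstructible N := by
  intro k hk
  have hM := blow_isBlowUp k hk HX HX1 HX2
  have hN := blow_isBlowUp k hk HY HY1 HY2
  have hmin := fun e => And.intro (delIso hM hN e) (conIso hk hM hN e)
  have hno := noniso hk hM hN
  refine ⟨blow k hk HX HX1 HX2, blow k hk HY HY1 HY2, hM, hN, hmin, hno, fun h => ?_, fun h => ?_⟩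
  · exact hno (h _ (hN.1.trans hM.1.symm) fun e _ => ⟨(hmin e).1.symm, (hmin e).2.symm⟩).symm
  · exact hno (h _ (hM.1.trans hN.1.symm) fun e _ => ⟨(hmin e).1, (hmin e).2⟩)

end Pool.Agent.Results.MP_b4c394_co.CloneFamily
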